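import Pool.Graph.R_pool_sql_team_seeded_63374d34.N585.GI.Interp

/-!
# Pairs of points with different parities which polynomials do not distinguish
-/

set_option autoImplicit false
set_option linter.unusedSectionVars false

namespace Pool.Agent.H677.CL

open Pool.Agent.N585.GI Finset MvPolynomial

/-- The shift of the plane along the diagonal, as a substitution. -/
noncomputable def shift (c : ℤ) : MvPolynomial (Fin 2) ℤ →ₐ[ℤ] MvPolynomial (Fin 2) ℤ :=
  aeval ![X 0 - C c, X 1 + C c]

theorem shift_shift (c : ℤ) (q : MvPolynomial (Fin 2) ℤ) : shift (-c) (shift c q) = q := by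
  have h : (shift (-c)).comp (shift c) = AlgHom.id ℤ _ := by
    refine MvPolynomial.algHom_ext fun i => ?_
    rw [AlgHom.comp_apply, AlgHom.id_apply]
    unfold shift
    fin_cases i
    · simp
    · simp
  have h1 := DFunLike.congr_fun h q
  exact h1

theorem shift_ne (c : ℤ) {q : MvPolynomial (Fin 2) ℤ} (hq : q ≠ 0) : shift c q ≠ 0 := by
  intro h
  apply hq
  rw [← shift_shift c q, h, map_zero]

theorem eval_shift (c : ℤ) (q : MvPolynomial (Fin 2) ℤ) (y : Fin 2 → ℤ) :
    eval y (shift c q) = eval ![y 0 - c, y 1 + c] q := by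
  have h : (eval y).comp (shift c : MvPolynomial (Fin 2) ℤ →+* MvPolynomial (Fin 2) ℤ) =
      eval ![y 0 - c, y 1 + c] := by
    refine MvPolynomial.ringHom_ext (fun a => ?_) fun i => ?_
    · simp [shift]
    · rw [RingHom.comp_apply]
      unfold shift
      fin_cases i
      · simp
      · simp
  exact RingHom.congr_fun h q

theorem exists_parities (P : Finset (MvPolynomial (Fin 2) ℤ)) :
    ∃ x x' : Fin 2 → ℕ, (∀ p ∈ P, CSetFam.ev 2 x p = 0 ↔ CSetFam.ev 2 x' p = 0) ∧
      x 0 + x 1 = x' 0 + x' 1 ∧ Even (x 0) ∧ Even (x 1) ∧ ¬ Even (x' 0) := by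
  classical
  let q : MvPolynomial (Fin 2) ℤ := ∏ p ∈ P.filter (fun p => p ≠ 0), p
  have hq : q ≠ 0 := Finset.prod_ne_zero_iff.2 fun p hp => (mem_filter.1 hp).2
  have hq2 : q * shift 1 q ≠ 0 := mul_ne_zero hq (shift_ne 1 hq)
  let N := (q * shift 1 q).totalDegree
  obtain ⟨a, ha, hv⟩ : ∃ a : Fin 2 → ℕ, (∀ i, 1 ≤ a i) ∧
      eval (fun i => (2 * (a i : ℤ))) (q * shift 1 q) ≠ 0 := by
    by_contra hcon
    push Not at hcon
    apply hq2
    refine MvPolynomial.eq_zero_of_eval_zero_at_prod_finset (q * shift 1 q)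
      (fun i => (Finset.Icc 1 (N + 1)).image fun a : ℕ => 2 * (a : ℤ)) ?_ ?_
    · intro i
      rw [Finset.card_image_of_injective _ (fun a b h => by
        have h1 : 2 * (a : ℤ) = 2 * (b : ℤ) := h
        omega), Nat.card_Icc]
      have := MvPolynomial.degreeOf_le_totalDegree (q * shift 1 q) i
      omega
    · intro y hy
      have h1 : ∀ i, ∃ a : ℕ, 1 ≤ a ∧ 2 * (a : ℤ) = y i := by
        intro i
        obtain ⟨a, ha, hay⟩ := mem_image.1 (hy i)
        exact ⟨a, (mem_Icc.1 ha).1, hay⟩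
      choose a ha hay using h1
      have h2 := hcon a ha
      rw [← funext hay]
      exact h2
  have hpat : ∀ x : Fin 2 → ℕ, N585.GI.val q x ≠ 0 → ∀ p ∈ P, CSetFam.ev 2 x p = 0 ↔ p = 0 := by
    intro x hx p hp
    rw [ev_eq, Int.cast_eq_zero]
    constructor
    · intro h0
      by_contra hne
      apply hx
      rw [N585.GI.val, map_prod]
      exact Finset.prod_eq_zero (mem_filter.2 ⟨hp, hne⟩) h0
    · rintro rfl
      simp [N585.GI.val]
  rw [map_mul] at hv
  have hv1 := left_ne_zero_of_mul hv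
  have hv2 := right_ne_zero_of_mul hv
  rw [eval_shift] at hv2
  refine ⟨fun i => 2 * a i, ![2 * a 0 - 1, 2 * a 1 + 1], fun p hp => ?_, ?_, ?_, ?_, ?_⟩
  · rw [hpat _ ?_ p hp, hpat _ ?_ p hp]
    · rw [N585.GI.val]
      have h1 := ha 0
      convert hv2 using 3
      funext i
      fin_cases i
      · simp
        omega
      · simp
    · rw [N585.GI.val]
      convert hv1 using 3
      push_cast
      rfl
  · have h1 := ha 0
    show 2 * a 0 + 2 * a 1 = (2 * a 0 - 1) + (2 * a 1 + 1)
    omega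
  · exact even_two_mul _
  · exact even_two_mul _
  · have h1 := ha 0
    show ¬ Even (2 * a 0 - 1)
    rw [Nat.not_even_iff_odd]
    exact ⟨a 0 - 1, by omega⟩

end Pool.Agent.H677.CL
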