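import Pool.Graph.R_pool_sql_team_seeded_63374d34.N585.GI.Sets

/-!
# Products of a family with a fixed finite set
-/

set_option autoImplicit false
set_option linter.unusedSectionVars false

namespace Pool.Agent.H677.CL

open Pool.Agent.N585.GI Finset

section

variable {X A : Type} [CommRing A] {ev : X → A →+* ℚ} {M : X → Type} [∀ x, Fintype (M x)]

/-- The family of the products of the members of a family with a fixed finite set. -/
noncomputable def prodFam (F : Fam ev M) (W : Type) [Fintype W] :
    Fam ev (fun x => M x × W) where
  T ι := F.T ι × (ι → W)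
  fin ι _ := by
    have := F.fin ι
    infer_instance
  map f τ := (F.map f τ.1, τ.2 ∘ f)
  tp t := (F.tp fun i => (t i).1, fun i => (t i).2)
  tp_comp t f := Prod.ext (F.tp_comp (fun i => (t i).1) f) rfl
  tp_empty t t' := Prod.ext (F.tp_empty (fun i => (t i).1) fun i => (t' i).1)
    (funext fun i => isEmptyElim i)
  sum_one ι _ h := by
    choose h' hh using fun (g : ι → W) (w : W) =>
      F.sum_one ι (fun τ => h (τ, Option.elim' w g))
    refine ⟨fun τ => ∑ w, h' τ.2 w τ.1, fun x t => ?_⟩
    rw [map_sum, Fintype.sum_prod_type_right]
    refine Finset.sum_congr rfl fun w _ => ?_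
    rw [← hh]
    refine Finset.sum_congr rfl fun b _ => ?_
    have e1 : (fun i => (Option.elim' (b, w) t i).1) = Option.elim' b fun i => (t i).1 := by
      funext i
      rcases i with _ | i <;> rfl
    have e2 : (fun i => (Option.elim' (b, w) t i).2) = Option.elim' w fun i => (t i).2 := by
      funext i
      rcases i with _ | i <;> rfl
    show ev x (h (F.tp fun i => (Option.elim' (b, w) t i).1,
      fun i => (Option.elim' (b, w) t i).2)) = _
    rw [e1, e2]

theorem prodFam_tp (F : Fam ev M) (W : Type) [Fintype W] {x : X} {ι : Type}
    (t : ι → M x × W) : (prodFam F W).tp t = (F.tp fun i => (t i).1, fun i => (t i).2) := rfl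

end

end Pool.Agent.H677.CL
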