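import Pool.Agent.H677.CL.Cones
import Pool.Agent.H677.CL.ProdFam

/-!
# Graphs with hidden colours
-/

set_option autoImplicit false
set_option linter.unusedSectionVars false

namespace Pool.Agent.H677.CL

open Pool.Agent.K4H86.OR
open Pool.Agent.N585.GI (CSet csetFam)

/-- A bijection with prescribed values at some points. -/
theorem exists_equiv {α β ι : Type} [Fintype α] [Fintype β] (hcard : Fintype.card α = Fintype.card β)
    (f : ι → α) (g : ι → β) (h : ∀ i j, f i = f j ↔ g i = g j) :
    ∃ e : α ≃ β, ∀ i, e (f i) = g i := by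
  classical
  let e0 : α ≃ β := Fintype.equivOfCardEq hcard
  let e1 : {a // a ∈ Set.range f} ≃ {a // a ∈ Set.range fun i => e0.symm (g i)} :=
    Equiv.ofBijective (fun a => ⟨e0.symm (g a.2.choose), ⟨a.2.choose, rfl⟩⟩) (by
      constructor
      · rintro ⟨a, ha⟩ ⟨a', ha'⟩ h1
        have h2 : g ha.choose = g ha'.choose := e0.symm.injective (Subtype.ext_iff.1 h1)
        have h3 := (h _ _).2 h2
        rw [ha.choose_spec, ha'.choose_spec] at h3
        exact Subtype.ext h3
      · rintro ⟨_, ⟨i, rfl⟩⟩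
        refine ⟨⟨f i, ⟨i, rfl⟩⟩, Subtype.ext ?_⟩
        have h1 : f (Exists.choose (⟨i, rfl⟩ : f i ∈ Set.range f)) = f i :=
          Exists.choose_spec (⟨i, rfl⟩ : f i ∈ Set.range f)
        show e0.symm (g _) = e0.symm (g i)
        rw [(h _ _).1 h1])
  refine ⟨(e1.extendSubtype).trans e0, fun i => ?_⟩
  have h1 : f i ∈ Set.range f := ⟨i, rfl⟩
  rw [Equiv.trans_apply, Equiv.extendSubtype_apply_of_mem e1 (f i) h1]
  show e0 (e0.symm (g _)) = g i
  rw [Equiv.apply_symm_apply]
  have h2 : f (Exists.choose h1) = f i := Exists.choose_spec h1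
  exact (h _ _).1 h2

/-- The graph of a component. -/
def label {x : Fin 2 → ℕ} (c : CSet x) : Bool := decide (c.1 = 1)

/-- The disjoint union of `x 0` cones over the first graph and `x 1` cones over the second graph. -/
def AA {U : Type} (Gs : Bool → SimpleGraph U) (x : Fin 2 → ℕ) : SimpleGraph (CSet x × Option U) :=
  cones Gs label

section

variable {X L U : Type} [AddCommGroup X] [SemilatticeSup L] [OrderBot L] [Fintype X] [Fintype U]

theorem card_cset (x : Fin 2 → ℕ) : Fintype.card (CSet x) = x 0 + x 1 := by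
  rw [Fintype.card_sigma, Fin.sum_univ_two, Fintype.card_fin, Fintype.card_fin]

theorem sat_types (F : Pool.Agent.Y598.IM.Fam X L U Bool) (Gs : Bool → SimpleGraph U)
    (hG : ∀ b, F.G b = (Gs b).Adj) {k p s : ℕ} (hp : p.Prime) (htor : ∀ M : X, p • M = 0)
    (hX : ∀ (K : Type) [Field K], (p : K) ≠ 0 → (Fintype.card X : K) ≠ 0)
    (hglob : Globalises F) (hK : F.c * k * (s + 5) ≤ F.K) (x x' : Fin 2 → ℕ)
    (hsum : x 0 + x 1 = x' 0 + x' 1) (φ : Local k p s)
    (z : Fin k → CSet x × Option U) (z' : Fin k → CSet x' × Option U)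
    (hz : (prodFam (csetFam 2) (Option U)).tp z = (prodFam (csetFam 2) (Option U)).tp z') :
    φ.Holds (AA Gs x) z ↔ φ.Holds (AA Gs x') z' := by
  have h0 : Pool.Agent.N585.GI.CSetFam.tp (fun i => (z i).1) =
      Pool.Agent.N585.GI.CSetFam.tp fun i => (z' i).1 :=
    congrArg Prod.fst hz
  have h1 : ∀ i, (z i).1.1 = (z' i).1.1 := fun i => congrFun (congrArg Prod.fst h0) i
  have h2 : ∀ i j, (z i).1 = (z j).1 ↔ (z' i).1 = (z' j).1 := fun i j =>
    iff_of_eq (congrFun (congrFun (congrArg Prod.snd h0) i) j)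
  have h3 : ∀ i, (z i).2 = (z' i).2 := fun i => congrFun (congrArg Prod.snd hz) i
  obtain ⟨β, hβ⟩ := exists_equiv (by rw [card_cset, card_cset, hsum]) (fun i => (z i).1)
    (fun i => (z' i).1) h2
  have h4 : φ.Holds (cones Gs fun c => label (β c)) z ↔ φ.Holds (AA Gs x') z' := by
    have h5 := sat_iso (E := (cones Gs fun c => label (β c)).Adj) (U := fun _ => False)
      (E' := (AA Gs x').Adj) (U' := fun _ => False)
      (Equiv.prodCongr β (Equiv.refl (Option U))) (fun a b => by
        show (a.1 = b.1 ∧ _) ↔ (β a.1 = β b.1 ∧ _)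
        rw [β.injective.eq_iff]
        exact Iff.rfl) (fun _ => Iff.rfl) φ z
    have h6 : (fun i => (Equiv.prodCongr β (Equiv.refl (Option U))) (z i)) = z' := by
      funext i
      exact Prod.ext (hβ i) (h3 i)
    rw [h6] at h5
    exact h5
  rw [← h4]
  refine sat_cones F Gs hG hp htor hX hglob hK label _ z (fun j => ?_) φ
  have h5 : β (z j).1 = (z' j).1 := hβ j
  show decide ((z j).1.1 = 1) = decide ((β (z j).1).1 = 1)
  rw [h5, h1]

end

end Pool.Agent.H677.CL
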