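import Pool.Graph.R_pool_sql_team_seeded_c8625f6e.K4H86.OR.Logic
import Pool.Graph.R_pool_sql_team_seeded_63374d34.N585.GI.Logic

/-!
# Isomorphism quantifiers on top of counting logic

Two layers of formulas. The first layer (`Local k p s`) is the infinitary counting logic with `k`
variables, enriched by linear-algebraic quantifiers and by oracles for structures with few
symmetries of order `p`, of the file `K4H86/OR/Logic.lean` of the library. The second layer
(`Fml k p s n`) is built from the formulas of the first layer by negation, infinitary conjunction,
quantification, substitution of variables and isomorphism quantifiers; the isomorphism quantifiers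
are those of the file `N585/GI/Logic.lean` of the library.
-/

set_option autoImplicit false

namespace Pool.Agent.H677.CL

open Pool.Agent.N585.GI (Pre)

/-- The formulas of the first layer, with the variables `0, …, k - 1`: infinitary counting logic,
with all quantifiers for classes of families of matrices which are closed under simultaneous
similarity, over all algebraically closed fields of characteristic different from `p`, and with all
quantifiers for classes of structures whose automorphism groups have `p`-rank at most `s`. -/
abbrev Local (k p s : ℕ) : Type 1 := Pool.Agent.K4H86.OR.Fml k p fun _ => s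

/-- The truth of a formula of the first layer in a finite graph. -/
def Local.Holds {V : Type} [Fintype V] (G : SimpleGraph V) {k p s : ℕ} (φ : Local k p s)
    (S : Fin k → V) : Prop :=
  Pool.Agent.K4H86.OR.Sat G.Adj (fun _ => False) φ S

/-- The formulas of the second layer with free variables `x_0, …, x_{n-1}`. -/
inductive Fml (k p s : ℕ) : ℕ → Type 1
  /-- the formula `φ` of the first layer holds for `x_{v 0}, …, x_{v (k-1)}` -/
  | base {n : ℕ} (v : Fin k → Fin n) (φ : Local k p s) : Fml k p s n
  /-- negation -/
  | neg {n : ℕ} (φ : Fml k p s n) : Fml k p s n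
  /-- the conjunction of an arbitrary, possibly infinite family of formulas -/
  | conj {n : ℕ} (J : Type) (φ : J → Fml k p s n) : Fml k p s n
  /-- there is `x_n` such that `φ` -/
  | ex {n : ℕ} (h : n + 1 ≤ k) (φ : Fml k p s (n + 1)) : Fml k p s n
  /-- substitution of variables: `φ` for `x_{v 0}, …, x_{v (m-1)}` in place of
  `x_0, …, x_{m-1}` -/
  | sub {n : ℕ} (m : ℕ) (h : m ≤ k) (v : Fin m → Fin n) (φ : Fml k p s m) : Fml k p s n
  /-- the isomorphism quantifier: two graphs are interpreted, and they are isomorphic. The
  vertices of the first graph are represented by the pairs of an element `i` of `Fin r` and a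
  `d`-tuple for which `δ i` holds; `ε i j` defines the equality of the represented vertices, and
  `η i j` defines adjacency. All these formulas may contain the variables `x_0, …, x_{n-1}` as
  parameters. The same for the second graph. -/
  | iso {n : ℕ} (d r : ℕ) (h : n + d + d + d ≤ k) (hr : r ≤ k)
      (δ : Fin r → Fml k p s (n + d)) (ε η : Fin r → Fin r → Fml k p s (n + d + d))
      (d' r' : ℕ) (h' : n + d' + d' + d' ≤ k) (hr' : r' ≤ k)
      (δ' : Fin r' → Fml k p s (n + d')) (ε' η' : Fin r' → Fin r' → Fml k p s (n + d' + d')) :
      Fml k p s n

/-- Satisfaction of the formula `φ` in the graph `G` by the assignment `a`. -/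
def Fml.Holds {V : Type} [Fintype V] (G : SimpleGraph V) {k p s : ℕ} :
    ∀ {n : ℕ}, Fml k p s n → (Fin n → V) → Prop
  | _, .base v φ, a => φ.Holds G (a ∘ v)
  | _, .neg φ, a => ¬ φ.Holds G a
  | _, .conj _ φ, a => ∀ j, (φ j).Holds G a
  | _, .ex _ φ, a => ∃ b : V, φ.Holds G (Fin.append a (fun _ : Fin 1 => b))
  | _, .sub _ _ v φ, a => φ.Holds G (a ∘ v)
  | _, .iso d r _ _ δ ε η d' r' _ _ δ' ε' η', a =>
      Pre.Iso
        (⟨fun u => (δ u.1).Holds G (Fin.append a u.2),
          fun u w => (ε u.1 w.1).Holds G (Fin.append (Fin.append a u.2) w.2),
          fun u w => (η u.1 w.1).Holds G (Fin.append (Fin.append a u.2) w.2)⟩ :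
          Pre (Fin r × (Fin d → V)))
        (⟨fun u => (δ' u.1).Holds G (Fin.append a u.2),
          fun u w => (ε' u.1 w.1).Holds G (Fin.append (Fin.append a u.2) w.2),
          fun u w => (η' u.1 w.1).Holds G (Fin.append (Fin.append a u.2) w.2)⟩ :
          Pre (Fin r' × (Fin d' → V)))

/-- An interpretation of graphs in graphs: the vertices of the output are represented by the pairs
of an element `i` of `Fin r` and a `d`-tuple of vertices for which `δ i` holds; `ε i j` defines the
equality of the represented vertices, and `η i j` defines adjacency. -/
structure Interp (k p s : ℕ) where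
  d : ℕ
  r : ℕ
  hd : d + d + d ≤ k
  hr : r ≤ k
  δ : Fin r → Fml k p s d
  ε : Fin r → Fin r → Fml k p s (d + d)
  η : Fin r → Fin r → Fml k p s (d + d)

/-- The output of an interpretation, as the presentation of a graph. -/
def Interp.out {k p s : ℕ} (I : Interp k p s) {V : Type} [Fintype V] (G : SimpleGraph V) :
    Pre (Fin I.r × (Fin I.d → V)) where
  dom u := (I.δ u.1).Holds G u.2
  eqv u w := (I.ε u.1 w.1).Holds G (Fin.append u.2 w.2)
  adj u w := (I.η u.1 w.1).Holds G (Fin.append u.2 w.2)

/-- The graph has an automorphism of order two without fixed points: an automorphism `f` such that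
`f (f v) = v` and `f v ≠ v` for all vertices `v`. -/
def FreeInvolution {V : Type} (G : SimpleGraph V) : Prop :=
  ∃ f : G ≃g G, (∀ v, f (f v) = v) ∧ ∀ v, f v ≠ v

end Pool.Agent.H677.CL
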