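import Pool.Graph.R_pool_sql_team_seeded_c8625f6e.K4H86.OR.Logic

/-!
# Isomorphisms preserve the formulas of the first layer
-/

set_option autoImplicit false
set_option linter.unusedSectionVars false

namespace Pool.Agent.H677.CL

open Pool.Agent.K4H86.OR

theorem comp_update {V V' : Type} {k : ℕ} (e : V → V') (S : Fin k → V) (i : Fin k) (x : V) :
    (fun j => e (Function.update S i x j)) = Function.update (fun j => e (S j)) i (e x) := by
  funext j
  by_cases h : j = i
  · subst h
    rw [Function.update_self, Function.update_self]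
  · rw [Function.update_of_ne h, Function.update_of_ne h]

theorem comp_put {V V' : Type} {k : ℕ} {α : Type} (e : V → V') (β : α ↪ Fin k) (S : Fin k → V)
    (a : α → V) : (fun j => e (put β S a j)) = put β (fun j => e (S j)) fun x => e (a x) := by
  funext j
  unfold put
  by_cases h : ∃ x, β x = j
  · obtain ⟨x, rfl⟩ := h
    rw [β.injective.extend_apply, β.injective.extend_apply]
  · rw [Function.extend_apply' _ _ _ h, Function.extend_apply' _ _ _ h]

/-- The bijection of the universes of the outputs. -/
def outEquiv {T T' : Type} (σ : T ≃ T') {δ : T → Prop} {ε : T → T → Prop} {δ' : T' → Prop}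
    {ε' : T' → T' → Prop} (hδ : ∀ t, δ t ↔ δ' (σ t)) (hε : ∀ t u, ε t u ↔ ε' (σ t) (σ u)) :
    OutT δ ε ≃ OutT δ' ε' :=
  Quot.congr (σ.subtypeEquiv hδ) fun a b => hε a.1 b.1

theorem outEquiv_iso {τ : Voc} {T T' : Type} (σ : T ≃ T') {δ : T → Prop} {ε : T → T → Prop}
    {ρ : ∀ i : τ.Sym, (Fin (τ.ar i) → T) → Prop} {δ' : T' → Prop} {ε' : T' → T' → Prop}
    {ρ' : ∀ i : τ.Sym, (Fin (τ.ar i) → T') → Prop} (hδ : ∀ t, δ t ↔ δ' (σ t))
    (hε : ∀ t u, ε t u ↔ ε' (σ t) (σ u)) (hρ : ∀ i a, ρ i a ↔ ρ' i fun j => σ (a j)) :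
    IsIso (outStr δ ε ρ) (outStr δ' ε' ρ') (outEquiv σ hδ hε) := by
  intro i q
  constructor
  · rintro ⟨a, h1, h2⟩
    refine ⟨fun j => σ.subtypeEquiv hδ (a j), fun j => ?_, ?_⟩
    · show _ = outEquiv σ hδ hε (q j)
      exact congrArg (outEquiv σ hδ hε) (h1 j)
    · exact (hρ i _).1 h2
  · rintro ⟨a, h1, h2⟩
    refine ⟨fun j => (σ.subtypeEquiv hδ).symm (a j), fun j => ?_, ?_⟩
    · apply (outEquiv σ hδ hε).injective
      refine Eq.trans ?_ (h1 j)
      show Quot.mk _ ((σ.subtypeEquiv hδ) ((σ.subtypeEquiv hδ).symm (a j))) = _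
      rw [Equiv.apply_symm_apply]
    · rw [hρ]
      have h3 : (fun j => σ ((σ.subtypeEquiv hδ).symm (a j)).1) = fun j => (a j).1 := by
        funext j
        exact σ.apply_symm_apply _
      rw [h3]
      exact h2

/-- **Isomorphisms preserve all formulas.** -/
theorem sat_iso {V V' : Type} [Fintype V] [Fintype V'] (e : V ≃ V') {E : V → V → Prop}
    {U : V → Prop} {E' : V' → V' → Prop} {U' : V' → Prop}
    (hE : ∀ x y, E x y ↔ E' (e x) (e y)) (hU : ∀ x, U x ↔ U' (e x)) {k p : ℕ} {f : ℕ → ℕ}
    (φ : Fml k p f) : ∀ S : Fin k → V, Sat E U φ S ↔ Sat E' U' φ fun i => e (S i) := by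
  classical
  induction φ with
  | eq i j =>
    intro S
    exact e.injective.eq_iff.symm
  | adj i j =>
    intro S
    exact hE _ _
  | mark i =>
    intro S
    exact hU _
  | not φ ih =>
    intro S
    exact not_congr (ih S)
  | all ι φ ih =>
    intro S
    exact forall_congr' fun i => ih i S
  | count n i φ ih =>
    intro S
    show n ≤ _ ↔ n ≤ _
    rw [Nat.card_congr (e.subtypeEquiv (p := fun x => Sat E U φ (Function.update S i x))
      (q := fun x => Sat E' U' φ (Function.update (fun i => e (S i)) i x)) fun x => by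
        rw [ih, comp_update])]
  | @lin K _ _ hK0 ι C m β φ ih =>
    intro S
    let σ : (Fin m → V) ≃ (Fin m → V') := Equiv.arrowCongr (Equiv.refl _) e
    have hσ : ∀ x j, σ x j = e (x j) := fun x j => rfl
    have key : ∀ i x y, Sat E U (φ i) (put β S (Sum.elim x y)) ↔
        Sat E' U' (φ i) (put β (fun i => e (S i)) (Sum.elim (σ x) (σ y))) := by
      intro i x y
      rw [ih, comp_put]
      have h1 : (fun z => e (Sum.elim x y z)) = Sum.elim (σ x) (σ y) := by
        funext z
        rcases z with z | z <;> rfl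
      rw [h1]
    let P : Matrix (Fin m → V) (Fin m → V') K := Matrix.of fun x y => if σ x = y then 1 else 0
    let Q : Matrix (Fin m → V') (Fin m → V) K := Matrix.of fun y x => if σ x = y then 1 else 0
    have hPQ : P * Q = 1 := by
      ext x y
      rw [Matrix.mul_apply]
      simp only [P, Q, Matrix.of_apply, ite_mul, one_mul, zero_mul]
      rw [Finset.sum_ite_eq]
      rw [if_pos (Finset.mem_univ _), Matrix.one_apply]
      simp only [σ.injective.eq_iff, eq_comm]
    have hQP : Q * P = 1 := by
      ext x y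
      rw [Matrix.mul_apply, Matrix.one_apply]
      simp only [P, Q, Matrix.of_apply, ite_mul, one_mul, zero_mul]
      rw [Finset.sum_eq_single (σ.symm x)]
      · rw [if_pos (σ.apply_symm_apply x), σ.apply_symm_apply]
      · intro z _ hz
        rw [if_neg]
        rintro rfl
        exact hz (σ.symm_apply_apply z).symm
      · intro h
        exact absurd (Finset.mem_univ _) h
    let A : ι → Matrix (Fin m → V) (Fin m → V) K := fun i => Matrix.of fun x y =>
      if Sat E U (φ i) (put β S (Sum.elim x y)) then 1 else 0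
    let B : ι → Matrix (Fin m → V') (Fin m → V') K := fun i => Matrix.of fun x y =>
      if Sat E' U' (φ i) (put β (fun i => e (S i)) (Sum.elim x y)) then 1 else 0
    have hAB : ∀ i, A i * P = P * B i := by
      intro i
      ext x y
      rw [Matrix.mul_apply, Matrix.mul_apply, Finset.sum_eq_single (σ.symm y),
        Finset.sum_eq_single (σ x)]
      · simp only [P, A, B, Matrix.of_apply, σ.apply_symm_apply, if_true, mul_one, one_mul]
        rw [key, σ.apply_symm_apply]
      · intro z _ hz
        simp only [P, Matrix.of_apply]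
        rw [if_neg (fun h => hz h.symm), zero_mul]
      · intro h
        exact absurd (Finset.mem_univ _) h
      · intro z _ hz
        simp only [P, Matrix.of_apply]
        rw [if_neg, mul_zero]
        rintro rfl
        exact hz (σ.symm_apply_apply z).symm
      · intro h
        exact absurd (Finset.mem_univ _) h
    show C.Mem (Fin m → V) _ ↔ C.Mem (Fin m → V') _
    constructor
    · intro h
      refine C.sim _ _ A B P Q hPQ hQP hAB ?_
      convert h
    · intro h
      refine C.sim _ _ B A Q P hQP hPQ (fun i => ?_) ?_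
      · calc B i * Q = Q * P * (B i * Q) := by rw [hQP, Matrix.one_mul]
          _ = Q * (P * B i) * Q := by simp only [Matrix.mul_assoc]
          _ = Q * (A i * P) * Q := by rw [hAB]
          _ = Q * A i * (P * Q) := by simp only [Matrix.mul_assoc]
          _ = Q * A i := by rw [hPQ, Matrix.mul_one]
      · convert h
  | quant τ C m βδ δ βε ε βρ ρ ihδ ihε ihρ =>
    intro S
    let σ : (Fin m → V) ≃ (Fin m → V') := Equiv.arrowCongr (Equiv.refl _) e
    have h1 : ∀ a : Fin m → V, Sat E U δ (put βδ S a) ↔
        Sat E' U' δ (put βδ (fun i => e (S i)) (σ a)) := by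
      intro a
      rw [ihδ, comp_put]
      rfl
    have h2 : ∀ a c : Fin m → V, Sat E U ε (put βε S (Sum.elim a c)) ↔
        Sat E' U' ε (put βε (fun i => e (S i)) (Sum.elim (σ a) (σ c))) := by
      intro a c
      rw [ihε, comp_put]
      have h1 : (fun z => e (Sum.elim a c z)) = Sum.elim (σ a) (σ c) := by
        funext z
        rcases z with z | z <;> rfl
      rw [h1]
    have h3 : ∀ (i : τ.Sym) (a : Fin (τ.ar i) → Fin m → V),
        Sat E U (ρ i) (put (βρ i) S fun x => a x.1 x.2) ↔
        Sat E' U' (ρ i) (put (βρ i) (fun i => e (S i)) fun x => σ (a x.1) x.2) := by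
      intro i a
      rw [ihρ, comp_put]
      rfl
    have h4 := outEquiv_iso (τ := τ) σ
      (δ := fun a => Sat E U δ (put βδ S a))
      (δ' := fun a => Sat E' U' δ (put βδ (fun i => e (S i)) a))
      (ε := fun a c => Sat E U ε (put βε S (Sum.elim a c)))
      (ε' := fun a c => Sat E' U' ε (put βε (fun i => e (S i)) (Sum.elim a c)))
      (ρ := fun i a => Sat E U (ρ i) (put (βρ i) S fun x => a x.1 x.2))
      (ρ' := fun i a => Sat E' U' (ρ i) (put (βρ i) (fun i => e (S i)) fun x => a x.1 x.2))
      h1 h2 h3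
    constructor
    · exact C.iso _ _ _ _ _ h4
    · obtain ⟨e0, he0⟩ : ∃ e0, IsIso (outStr (τ := τ) (T := Fin m → V)
          (fun a => Sat E U δ (put βδ S a)) (fun a c => Sat E U ε (put βε S (Sum.elim a c)))
          fun i a => Sat E U (ρ i) (put (βρ i) S fun x => a x.1 x.2))
          (outStr (τ := τ) (T := Fin m → V') (fun a => Sat E' U' δ (put βδ (fun i => e (S i)) a))
          (fun a c => Sat E' U' ε (put βε (fun i => e (S i)) (Sum.elim a c)))
          fun i a => Sat E' U' (ρ i) (put (βρ i) (fun i => e (S i)) fun x => a x.1 x.2)) e0 :=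
        ⟨_, h4⟩
      refine C.iso _ _ _ _ e0.symm fun i x => ?_
      have h5 := he0 i fun j => e0.symm (x j)
      have h6 : (fun j => e0 (e0.symm (x j))) = x := funext fun j => e0.apply_symm_apply _
      rw [h6] at h5
      exact h5.symm

end Pool.Agent.H677.CL
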