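import Pool.Graph.R_pool_sql_team_seeded_c8625f6e.K4H86.OR.Main
import Pool.Agent.H677.GW.FamBundle
import Pool.Agent.H677.CL.SatIso
import Pool.Agent.H677.CL.Logic

/-!
# Disjoint unions of cones over the members of a family
-/

set_option autoImplicit false
set_option linter.unusedSectionVars false

namespace Pool.Agent.H677.CL

open Pool.Agent.Y598.IM Pool.Agent.K4H86.OR Pool.Agent.H677.GW
open Pool.Agent.TH658.Sos.Act (lvT lvT_congr lv_le_lvT)

/-- The adjacency relation of a cone: the apex `none` is joined to all other vertices. -/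
def coneRel {U : Type} (G : U → U → Prop) : Option U → Option U → Prop
  | none, none => False
  | none, some _ => True
  | some _, none => True
  | some u, some v => G u v

/-- The disjoint union of the cones over the graphs `X (b i)`, for all indices `i`. -/
def cones {I U : Type} (X : Bool → SimpleGraph U) (b : I → Bool) :
    SimpleGraph (I × Option U) where
  Adj x y := x.1 = y.1 ∧ coneRel (X (b x.1)).Adj x.2 y.2
  symm := ⟨by
    rintro ⟨i, u⟩ ⟨j, v⟩ ⟨h, h'⟩
    simp only at h
    subst h
    refine ⟨rfl, ?_⟩
    rcases u with _ | u <;> rcases v with _ | v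
    · exact h'
    · exact h'
    · exact h'
    · exact (show (X (b i)).Adj u v from h').symm⟩
  loopless := ⟨by
    rintro ⟨i, u⟩ ⟨_, h'⟩
    rcases u with _ | u
    · exact h'
    · exact (X (b i)).irrefl h'⟩

/-- The vertices as apices and other vertices. -/
def split (I U : Type) : I × Option U ≃ I ⊕ (I × U) where
  toFun x := match x.2 with
    | none => Sum.inl x.1
    | some u => Sum.inr (x.1, u)
  invFun := Sum.elim (fun i => (i, none)) fun q => (q.1, some q.2)
  left_inv := by
    rintro ⟨i, u⟩
    rcases u with _ | u <;> rfl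
  right_inv := by
    rintro (i | q) <;> rfl

theorem split_adj {I U : Type} (X : Bool → SimpleGraph U) (b : I → Bool) (x y : I × Option U) :
    (cones X b).Adj x y ↔ bRel (fun _ _ => False) (fun h i => h = i) (fun c => (X c).Adj) b
      (split I U x) (split I U y) := by
  obtain ⟨i, u⟩ := x
  obtain ⟨j, v⟩ := y
  rcases u with _ | u <;> rcases v with _ | v
  · show (i = j ∧ False) ↔ False
    simp
  · show (i = j ∧ True) ↔ i = j
    simp
  · show (i = j ∧ True) ↔ j = i
    rw [and_true]
    exact eq_comm
  · exact Iff.rfl

section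

variable {X L U I : Type} [AddCommGroup X] [SemilatticeSup L] [OrderBot L] [Fintype I]
  [DecidableEq I] [Fintype X] [Fintype U]

/-- The family of the disjoint unions of cones. -/
def coneFam (I : Type) [Fintype I] [DecidableEq I] (F : Fam X L U Bool) :
    Fam (I → X) (I → L) (I ⊕ (I × U)) (I → Bool) :=
  bundleFam F (fun _ _ => False) fun h i => h = i

/-- The formulas of the first layer do not see the difference between the members of the family. -/
theorem sat_cones (F : Fam X L U Bool) (Gs : Bool → SimpleGraph U)
    (hG : ∀ b, F.G b = (Gs b).Adj) {k p s : ℕ} (hp : p.Prime) (htor : ∀ M : X, p • M = 0)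
    (hX : ∀ (K : Type) [Field K], (p : K) ≠ 0 → (Fintype.card X : K) ≠ 0)
    (hglob : Globalises F) (hK : F.c * k * (s + 5) ≤ F.K) (b b' : I → Bool)
    (S : Fin k → I × Option U) (hS : ∀ j, b (S j).1 = b' (S j).1) (φ : Local k p s) :
    φ.Holds (cones Gs b) S ↔ φ.Holds (cones Gs b') S := by
  classical
  rcases isEmpty_or_nonempty I with hI | hI
  · have h1 : b = b' := Subsingleton.elim _ _
    rw [h1]
  have hGs : F.G = fun c => (Gs c).Adj := funext hG
  have key : ∀ b : I → Bool, φ.Holds (cones Gs b) S ↔
      Sat ((coneFam I F).G b) (fun _ => False) φ fun j => split I U (S j) := by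
    intro b
    refine sat_iso (E := (cones Gs b).Adj) (U := fun _ => False) (E' := (coneFam I F).G b)
      (U' := fun _ => False) (split I U) (fun x y => ?_) (fun x => Iff.rfl) φ S
    rw [split_adj, ← hGs]
    rfl
  rw [key, key]
  -- the partial isomorphism which fixes the components of the given vertices
  choose M₀ hM₀ using fun i : I => F.bot_sol (b i) (b' i)
  let M : I → X := fun i => if ∃ j, (S j).1 = i then 0 else M₀ i
  have hM1 : ∀ j, M (S j).1 = 0 := fun j => if_pos ⟨j, rfl⟩
  have hlv : ∀ (i : I), (¬ ∃ j, (S j).1 = i) →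
      lvT (coneFam I F).lv (fun j => split I U (S j)) i = ⊥ := by
    intro i hi
    have h1 : lvT (coneFam I F).lv (fun j => split I U (S j)) =
        Finset.univ.sup fun j => (coneFam I F).lv (split I U (S j)) := rfl
    rw [h1, Finset.sup_apply]
    rw [← le_bot_iff]
    refine Finset.sup_le fun j _ => ?_
    rcases hj : S j with ⟨i', u⟩
    have hne : i ≠ i' := by
      rintro rfl
      exact hi ⟨j, by rw [hj]⟩
    rcases u with _ | u
    · exact le_rfl
    · show Function.update (⊥ : I → L) i' (F.lv u) i ≤ ⊥
      rw [Function.update_of_ne hne]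
      exact le_rfl
  have hM : M ∈ (coneFam I F).Sol b b' (lvT (coneFam I F).lv fun j => split I U (S j)) := by
    intro i
    by_cases hi : ∃ j, (S j).1 = i
    · have h1 : M i = 0 := if_pos hi
      obtain ⟨j, hj⟩ := hi
      have h2 : b i = b' i := by rw [← hj]; exact hS j
      rw [h1, ← h2]
      exact (F.sol_D _ _ _).2 (F.D _).zero_mem
    · have h1 : M i = M₀ i := if_neg hi
      rw [h1, hlv i hi]
      exact hM₀ i
  have hact : (fun j => (coneFam I F).act M (split I U (S j))) = fun j => split I U (S j) := by
    funext j
    have h1 := hM1 j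
    rcases hj : S j with ⟨i, u⟩
    rw [hj] at h1
    rcases u with _ | u
    · rfl
    · show Sum.inr (i, F.act (M i) u) = Sum.inr (i, u)
      rw [show M i = 0 from h1, F.act_zero]
  have h1 := pres (F := coneFam I F) (U := fun _ => False) (k := k) (p := p) (s := s)
    (f := fun _ => s) (fun _ _ => Iff.rfl) hp (fun M => funext fun i => htor (M i)) (by
      intro K _ hpK
      rw [Fintype.card_fun, Nat.cast_pow]
      exact pow_ne_zero _ (hX K hpK)) (by
      intro W M hW hM
      have h2 : ∀ i, F.size (W i) ≤ F.K := fun i =>
        (Finset.single_le_sum (f := fun i => F.size (W i)) (fun i _ => Nat.zero_le _)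
          (Finset.mem_univ i)).trans hW
      choose α hα using fun i => hglob (W i) (M i) (h2 i) (hM i)
      exact ⟨α, fun W' i => (hα i).1 (W' i), fun i => (hα i).2⟩) hK (fun _ _ => le_rfl) φ b b'
    (fun j => split I U (S j)) M hM
  rw [hact] at h1
  exact h1

end

end Pool.Agent.H677.CL
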