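import Pool.Graph.R_pool_sql_team_seeded_63374d34.N585.GI.Unif
import Pool.Agent.H677.CL.Logic

/-!
# Truth of the formulas of the second layer for tuples of the same type
-/

set_option autoImplicit false
set_option linter.unusedSectionVars false

namespace Pool.Agent.H677.CL

open Pool.Agent.N585.GI (Pre Fam comp_append append_left append_right)

variable {X A : Type} [CommRing A] {ev : X → A →+* ℚ} {M : X → Type} [∀ x, Fintype (M x)]
  (F : Fam ev M)

/-- The truth of formulas with `k` variables for tuples of the same type is the same for parameter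
values which are not distinguished, provided this is true for the formulas of the first layer. -/
theorem holds_iff {k p s : ℕ} (G : ∀ x, SimpleGraph (M x))
    (E : X → X → Prop) (hrefl : ∀ x, E x x) (hsymm : ∀ x x', E x x' → E x' x)
    (hEq : ∀ x x', E x x' → F.Eqv k x x')
    (hbase : ∀ x x', E x x' → ∀ (φ : Local k p s) (z : Fin k → M x) (z' : Fin k → M x'),
      F.tp z = F.tp z' → (φ.Holds (G x) z ↔ φ.Holds (G x') z')) {n : ℕ} (φ : Fml k p s n) :
    n ≤ k → ∀ x x', E x x' → ∀ (z : Fin n → M x) (z' : Fin n → M x'), F.tp z = F.tp z' →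
      (φ.Holds (G x) z ↔ φ.Holds (G x') z') := by
  induction φ with
  | base v φ =>
    intro _ x x' he z z' hz
    exact hbase x x' he φ _ _ (F.tp_congr v hz)
  | neg φ ih =>
    intro hn x x' he z z' hz
    exact not_congr (ih hn x x' he z z' hz)
  | conj J φ ih =>
    intro hn x x' he z z' hz
    exact forall_congr' fun j => ih j hn x x' he z z' hz
  | ex h φ ih =>
    intro hn x x' he z z' hz
    have key : ∀ x x', E x x' → ∀ (z : Fin _ → M x) (z' : Fin _ → M x'), F.tp z = F.tp z' →
        (Fml.ex h φ).Holds (G x) z → (Fml.ex h φ).Holds (G x') z' := by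
      rintro x x' he z z' hz ⟨b, hb⟩
      obtain ⟨t', ht'⟩ := (hEq x x' he).1.extend h hz (fun _ : Fin 1 => b)
      refine ⟨t' 0, ?_⟩
      have e : t' = fun _ : Fin 1 => t' 0 := by funext y; rw [Subsingleton.elim y 0]
      rw [← e]
      exact (ih h x x' he _ _ ht').1 hb
    exact ⟨key x x' he z z' hz, key x' x (hsymm _ _ he) z' z hz.symm⟩
  | sub m h v φ ih =>
    intro hn x x' he z z' hz
    exact ih h x x' he _ _ (F.tp_congr v hz)
  | @iso n d r h hr δ ε η d' r' h' hr' δ' ε' η' ih1 ih2 ih3 ih1' ih2' ih3' =>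
    intro hn x x' he z z' hz
    -- a formula in more variables is a set of types, the same one for both parameter values
    have key : ∀ {d : ℕ} (hd : n + d ≤ k) (ψ : Fml k p s (n + d)),
        (n + d ≤ k → ∀ x x', E x x' → ∀ (z : Fin (n + d) → M x) (z' : Fin (n + d) → M x'),
          F.tp z = F.tp z' → (ψ.Holds (G x) z ↔ ψ.Holds (G x') z')) →
        ∃ S : Set (F.T (Fin (n + d))),
          (∀ t : Fin d → M x, ψ.Holds (G x) (Fin.append z t) ↔ F.tp (Fin.append z t) ∈ S) ∧
          (∀ t : Fin d → M x', ψ.Holds (G x') (Fin.append z' t) ↔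
            F.tp (Fin.append z' t) ∈ S) := by
      intro d hd ψ ih
      refine ⟨{τ | ∃ t : Fin d → M x, F.tp (Fin.append z t) = τ ∧ ψ.Holds (G x) (Fin.append z t)},
        fun t => ⟨fun ht => ⟨t, rfl, ht⟩, ?_⟩, fun t => ⟨fun ht => ?_, ?_⟩⟩
      · rintro ⟨s, hs, hh⟩
        exact (ih hd x x (hrefl x) _ _ hs).1 hh
      · obtain ⟨s, hs⟩ := (hEq x x' he).1.symm.extend hd hz.symm t
        exact ⟨s, hs.symm, (ih hd x x' he _ _ hs.symm).2 ht⟩
      · rintro ⟨s, hs, hh⟩
        exact (ih hd x x' he _ _ hs).1 hh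
    -- the same for two blocks
    have key2 : ∀ {d : ℕ} (hd : n + d + d ≤ k) (ψ : Fml k p s (n + d + d)),
        (n + d + d ≤ k → ∀ x x', E x x' → ∀ (z : Fin (n + d + d) → M x)
          (z' : Fin (n + d + d) → M x'),
          F.tp z = F.tp z' → (ψ.Holds (G x) z ↔ ψ.Holds (G x') z')) →
        ∃ S : Set (F.T (Fin (n + d + d))),
          (∀ t s : Fin d → M x, ψ.Holds (G x) (Fin.append (Fin.append z t) s) ↔
            F.tp (Fin.append (Fin.append z t) s) ∈ S) ∧
          (∀ t s : Fin d → M x', ψ.Holds (G x') (Fin.append (Fin.append z' t) s) ↔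
            F.tp (Fin.append (Fin.append z' t) s) ∈ S) := by
      intro d hd ψ ih
      refine ⟨{τ | ∃ t s : Fin d → M x, F.tp (Fin.append (Fin.append z t) s) = τ ∧
          ψ.Holds (G x) (Fin.append (Fin.append z t) s)},
        fun t s => ⟨fun ht => ⟨t, s, rfl, ht⟩, ?_⟩, fun t s => ⟨fun ht => ?_, ?_⟩⟩
      · rintro ⟨t1, s1, hs, hh⟩
        exact (ih hd x x (hrefl x) _ _ hs).1 hh
      · obtain ⟨t1, ht1⟩ := (hEq x x' he).1.symm.extend (by omega) hz.symm t
        obtain ⟨s1, hs1⟩ := (hEq x x' he).1.symm.extend hd ht1 s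
        exact ⟨t1, s1, hs1.symm, (ih hd x x' he _ _ hs1.symm).2 ht⟩
      · rintro ⟨t1, s1, hs, hh⟩
        exact (ih hd x x' he _ _ hs).1 hh
    choose Sδ hδ hδ2 using fun i => key (by omega) (δ i) (ih1 i)
    choose Sε hε hε2 using fun i j => key2 (by omega) (ε i j) (ih2 i j)
    choose Sη hη hη2 using fun i j => key2 (by omega) (η i j) (ih3 i j)
    choose Sδ' hδ' hδ2' using fun i => key (by omega) (δ' i) (ih1' i)
    choose Sε' hε' hε2' using fun i j => key2 (by omega) (ε' i j) (ih2' i j)
    choose Sη' hη' hη2' using fun i j => key2 (by omega) (η' i j) (ih3' i j)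
    have main := (hEq x x' he).2 n (by omega) d (by omega) r hr d' (by omega) r' hr'
      (Sδ, Sε, Sη) (Sδ', Sε', Sη') h h' z z' hz
    simp only [Fml.Holds, hδ, hε, hη, hδ2, hε2, hη2, hδ', hε', hη', hδ2', hε2', hη2']
    exact main

end Pool.Agent.H677.CL
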