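import Pool.Agent.H677.CL.Invol
import Pool.Agent.H677.CL.Unif
import Pool.Agent.H677.CL.Arith

/-!
# Graphs which the formulas do not distinguish
-/

set_option autoImplicit false
set_option linter.unusedSectionVars false

namespace Pool.Agent.H677.CL

open Pool.Agent.K4H86.OR Pool.Agent.Y598.CG Pool.Agent.Y598.VT
open Pool.Agent.N585.GI (CSet csetFam)

theorem exists_pair (p : ℕ) (hp : p.Prime) (k s : ℕ) :
    ∃ (V V' : Type) (_ : Fintype V) (_ : Fintype V') (G : SimpleGraph V) (H : SimpleGraph V'),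
      Fintype.card V = Fintype.card V' ∧ FreeInvolution G ∧ ¬ FreeInvolution H ∧
      ∀ φ : Fml k p s 0, φ.Holds G Fin.elim0 ↔ φ.Holds H Fin.elim0 := by
  have : Fact p.Prime := ⟨hp⟩
  have : NeZero p := ⟨hp.ne_zero⟩
  obtain ⟨r, hr0⟩ : ∃ r, r = 2 * k * (s + 5) + 8 := ⟨_, rfl⟩
  have hr : 4 ≤ r := by omega
  have hr3 : 3 ≤ r := by omega
  have : NeZero r := ⟨by omega⟩
  have hn : 2 ≤ r * 3 ^ (r - 1) := by
    have : 1 ≤ 3 ^ (r - 1) := Nat.one_le_pow _ _ (by norm_num)
    calc 2 ≤ r * 1 := by omega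
      _ ≤ _ := Nat.mul_le_mul_left _ this
  have hnon : IsEmpty (gp (twp p r false) ≃g gp (twp p r true)) := by
    refine no_iso hr3 _ ?_
    show ∑ v : Lp r, (Pi.single (1 : Lp r) (1 : ZMod p) : Lp r → ZMod p) v ≠ 0
    rw [Finset.sum_pi_single' (1 : Lp r) (1 : ZMod p) Finset.univ, if_pos (Finset.mem_univ _)]
    exact one_ne_zero
  have hinj : Function.Injective fun b => (gp (twp p r b)).Adj := by
    intro b b' hbb
    have h1 : gp (twp p r b) = gp (twp p r b') := SimpleGraph.ext hbb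
    cases b <;> cases b'
    · rfl
    · rw [← h1] at hnon
      exact (hnon.false (RelIso.refl _)).elim
    · rw [h1] at hnon
      exact (hnon.false (RelIso.refl _)).elim
    · rfl
  let F := pFam hr hn (twp p r) hinj
  have hglob : Globalises F := pFam_glob hr hn (twp p r) hinj
  have hK : F.c * k * (s + 5) ≤ F.K := by
    show 2 * k * (s + 5) ≤ 3 ^ (r - 4)
    have h1 : 2 * k * (s + 5) < 3 ^ (2 * k * (s + 5)) := Nat.lt_pow_self (by norm_num)
    have h2 : 3 ^ (2 * k * (s + 5)) ≤ 3 ^ (r - 4) := Nat.pow_le_pow_right (by norm_num) (by omega)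
    omega
  have htor : ∀ M : Ed r → ZMod p, p • M = 0 := by
    intro M
    funext e
    rw [Pi.smul_apply, Pi.zero_apply]
    exact ZModModule.char_nsmul_eq_zero p (M e)
  have hX : ∀ (K : Type) [Field K], (p : K) ≠ 0 →
      (Fintype.card (Ed r → ZMod p) : K) ≠ 0 := by
    intro K _ h3
    rw [Fintype.card_fun, ZMod.card, Nat.cast_pow]
    exact pow_ne_zero _ h3
  let Gs : Bool → SimpleGraph (Vp p r) := fun b => gp (twp p r b)
  have hcard : 3 * p + 1 < Fintype.card (Vp p r) := by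
    rw [Fintype.card_prod, Fintype.card_prod (ZMod p), ZMod.card, card_Lp]
    have h1 := hp.two_le
    have h2 : 1 ≤ 3 ^ r := Nat.one_le_pow _ _ (by norm_num)
    have h3 : 2 * (8 * 1) * (2 * p) ≤ 2 * (r * 3 ^ r) * (p * p) := by
      refine Nat.mul_le_mul (Nat.mul_le_mul_left _ (Nat.mul_le_mul (by omega) h2))
        (Nat.mul_le_mul_right _ h1)
    omega
  obtain ⟨P, hP⟩ := (prodFam (csetFam 2) (Option (Vp p r))).finDet_eqv k
  obtain ⟨x, x', hxP, hsum, h0, h1, h0'⟩ := exists_parities P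
  refine ⟨CSet x × Option (Vp p r), CSet x' × Option (Vp p r), inferInstance, inferInstance,
    AA Gs x, AA Gs x', ?_, freeInvolution_of_even fun i => ?_, ?_, fun φ => ?_⟩
  · rw [Fintype.card_prod, Fintype.card_prod, card_cset, card_cset, hsum]
  · fin_cases i
    · exact h0
    · exact h1
  · exact not_freeInvolution (D := 3 * p) (fun c u => ncard_neighbours _ u) hcard hnon h0'
  · refine holds_iff (prodFam (csetFam 2) (Option (Vp p r))) (fun x => AA Gs x)
      (fun x x' => x 0 + x 1 = x' 0 + x' 1 ∧ ∀ p ∈ P, Pool.Agent.N585.GI.CSetFam.ev 2 x p = 0 ↔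
        Pool.Agent.N585.GI.CSetFam.ev 2 x' p = 0) (fun x => ⟨rfl, fun _ _ => Iff.rfl⟩)
      (fun x x' h => ⟨h.1.symm, fun p hp => (h.2 p hp).symm⟩) (fun x x' h => hP x x' h.2)
      (fun x x' h φ z z' hz => ?_) φ (Nat.zero_le _) x x' ⟨hsum, hxP⟩ _ _
      ((prodFam (csetFam 2) (Option (Vp p r))).tp_empty _ _)
    exact sat_types F Gs (fun _ => rfl) hp htor hX hglob hK x x' h.1 φ z z' hz

end Pool.Agent.H677.CL
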