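import Pool.Agent.H677.CL.Colours

/-!
# Involutory automorphisms without fixed points of unions of cones
-/

set_option autoImplicit false
set_option linter.unusedSectionVars false

namespace Pool.Agent.H677.CL

open Pool.Agent.N585.GI (CSet)

/-- The exchange of the neighbouring numbers `2 a` and `2 a + 1`. -/
def flip {n : ℕ} (h : Even n) (a : Fin n) : Fin n :=
  ⟨if (a : ℕ) % 2 = 0 then a + 1 else a - 1, by
    have h1 := a.isLt
    obtain ⟨m, rfl⟩ := h
    split_ifs <;> omega⟩

theorem flip_flip {n : ℕ} (h : Even n) (a : Fin n) : flip h (flip h a) = a := by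
  apply Fin.ext
  show (if (if (a : ℕ) % 2 = 0 then (a : ℕ) + 1 else a - 1) % 2 = 0 then
    (if (a : ℕ) % 2 = 0 then (a : ℕ) + 1 else a - 1) + 1 else
    (if (a : ℕ) % 2 = 0 then (a : ℕ) + 1 else a - 1) - 1) = a
  split_ifs <;> omega

theorem flip_ne {n : ℕ} (h : Even n) (a : Fin n) : flip h a ≠ a := by
  intro h1
  have h2 : (if (a : ℕ) % 2 = 0 then (a : ℕ) + 1 else a - 1) = a := congrArg Fin.val h1
  split_ifs at h2 <;> omega

/-- The exchange of neighbouring components. -/
def flipC {x : Fin 2 → ℕ} (h : ∀ i, Even (x i)) (c : CSet x) : CSet x := ⟨c.1, flip (h c.1) c.2⟩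

theorem flipC_flipC {x : Fin 2 → ℕ} (h : ∀ i, Even (x i)) (c : CSet x) :
    flipC h (flipC h c) = c := by
  obtain ⟨i, a⟩ := c
  show (⟨i, flip (h i) (flip (h i) a)⟩ : CSet x) = ⟨i, a⟩
  rw [flip_flip]

theorem flipC_ne {x : Fin 2 → ℕ} (h : ∀ i, Even (x i)) (c : CSet x) : flipC h c ≠ c := by
  obtain ⟨i, a⟩ := c
  intro h1
  have h2 : flip (h i) a = a := eq_of_heq (Sigma.mk.inj h1).2
  exact flip_ne _ _ h2

section

variable {U : Type} {Gs : Bool → SimpleGraph U}

/-- If both numbers of components are even then there is a fixed-point-free involution. -/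
theorem freeInvolution_of_even {x : Fin 2 → ℕ} (h : ∀ i, Even (x i)) :
    FreeInvolution (AA Gs x) := by
  refine ⟨⟨⟨fun v => (flipC h v.1, v.2), fun v => (flipC h v.1, v.2), ?_, ?_⟩, ?_⟩, ?_, ?_⟩
  · rintro ⟨c, u⟩
    exact Prod.ext (flipC_flipC h c) rfl
  · rintro ⟨c, u⟩
    exact Prod.ext (flipC_flipC h c) rfl
  · rintro ⟨c, u⟩ ⟨c', u'⟩
    show (flipC h c = flipC h c' ∧ coneRel (Gs (label (flipC h c))).Adj u u') ↔
      (c = c' ∧ coneRel (Gs (label c)).Adj u u')
    have h1 : flipC h c = flipC h c' ↔ c = c' := by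
      constructor
      · intro h1
        rw [← flipC_flipC h c, h1, flipC_flipC]
      · rintro rfl
        rfl
    rw [h1]
    exact Iff.rfl
  · rintro ⟨c, u⟩
    exact Prod.ext (flipC_flipC h c) rfl
  · rintro ⟨c, u⟩ h1
    exact flipC_ne h c (congrArg Prod.fst h1)

variable [Fintype U] {D : ℕ}

theorem ncard_apex {I : Type} [Finite I] (b : I → Bool) (i : I) :
    ((cones Gs b).neighborSet (i, none)).ncard = Fintype.card U := by
  have h1 : (cones Gs b).neighborSet (i, none) = Set.range fun u : U => (i, some u) := by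
    ext ⟨j, v⟩
    rw [SimpleGraph.mem_neighborSet]
    rcases v with _ | v
    · show (i = j ∧ False) ↔ _
      simp
    · show (i = j ∧ True) ↔ _
      simp [eq_comm]
  rw [h1, ← Nat.card_coe_set_eq, Nat.card_range_of_injective (fun u v h => by simpa using h),
    Nat.card_eq_fintype_card]

theorem ncard_base {I : Type} [Finite I] (hD : ∀ c u, ((Gs c).neighborSet u).ncard ≤ D)
    (b : I → Bool) (i : I) (u : U) :
    ((cones Gs b).neighborSet (i, some u)).ncard ≤ D + 1 := by
  have h1 : (cones Gs b).neighborSet (i, some u) ⊆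
      insert (i, none) ((fun v : U => (i, some v)) '' (Gs (b i)).neighborSet u) := by
    rintro ⟨j, v⟩ h
    rw [SimpleGraph.mem_neighborSet] at h
    obtain ⟨h2, h3⟩ := h
    simp only at h2
    subst h2
    rcases v with _ | v
    · exact Or.inl rfl
    · exact Or.inr ⟨v, h3, rfl⟩
  refine (Set.ncard_le_ncard h1 (Set.toFinite _)).trans ((Set.ncard_insert_le _ _).trans ?_)
  exact Nat.add_le_add_right ((Set.ncard_image_le (Set.toFinite _)).trans (hD _ _)) 1

/-- If the number of the components of the first kind is odd then there is no fixed-point-free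
involution. -/
theorem not_freeInvolution (hD : ∀ c u, ((Gs c).neighborSet u).ncard ≤ D)
    (hU : D + 1 < Fintype.card U) (hne : IsEmpty (Gs false ≃g Gs true)) {x : Fin 2 → ℕ}
    (hx : ¬ Even (x 0)) : ¬ FreeInvolution (AA Gs x) := by
  classical
  rintro ⟨f, hf1, hf2⟩
  -- apices are mapped to apices
  have h1 : ∀ c : CSet x, (f (c, none)).2 = none := by
    intro c
    rcases h2 : f (c, none) with ⟨c', u⟩
    rcases u with _ | u
    · rfl
    · exfalso
      have h3 := Pool.Agent.H677.GW.iso_ncard f (c, none)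
      have h4 : ((AA Gs x).neighborSet (c, none)).ncard = Fintype.card U :=
        ncard_apex label c
      have h5 : ((AA Gs x).neighborSet (f (c, none))).ncard ≤ D + 1 := by
        rw [h2]
        exact ncard_base hD label c' u
      omega
  let π : CSet x → CSet x := fun c => (f (c, none)).1
  have hπ : ∀ c, f (c, none) = (π c, none) := fun c => Prod.ext rfl (h1 c)
  have hππ : ∀ c, π (π c) = c := by
    intro c
    have h3 := hf1 (c, none)
    rw [hπ, hπ] at h3
    exact congrArg Prod.fst h3
  have hπne : ∀ c, π c ≠ c := by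
    intro c h3
    apply hf2 (c, none)
    rw [hπ, h3]
  -- the images of the other vertices
  have h2 : ∀ (c : CSet x) (u : U), ∃ v, f (c, some u) = (π c, some v) := by
    intro c u
    have h3 : (AA Gs x).Adj (c, none) (c, some u) := ⟨rfl, trivial⟩
    have h4 := f.map_adj_iff.2 h3
    rw [hπ] at h4
    rcases h5 : f (c, some u) with ⟨c', v⟩
    rw [h5] at h4
    have h6 : π c = c' := h4.1
    rcases v with _ | v
    · exact (h4.2 : False).elim
    · exact ⟨v, by rw [h6]⟩
  choose g hg using h2
  have hlabel : ∀ c, label (π c) = label c := by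
    intro c
    have hinj : Function.Injective (g c) := by
      intro u v h
      have h3 : f (c, some u) = f (c, some v) := by rw [hg, hg, h]
      have h4 := congrArg Prod.snd (f.injective h3)
      exact Option.some_injective _ h4
    have hbij : Function.Bijective (g c) := Finite.injective_iff_bijective.1 hinj
    have hadj : ∀ u v, (Gs (label (π c))).Adj (g c u) (g c v) ↔ (Gs (label c)).Adj u v := by
      intro u v
      have h3 : (AA Gs x).Adj (f (c, some u)) (f (c, some v)) ↔
        (AA Gs x).Adj (c, some u) (c, some v) := f.map_adj_iff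
      rw [hg, hg] at h3
      have h4 : (π c = π c ∧ (Gs (label (π c))).Adj (g c u) (g c v)) ↔
        (c = c ∧ (Gs (label c)).Adj u v) := h3
      simpa using h4
    let e : Gs (label c) ≃g Gs (label (π c)) := ⟨Equiv.ofBijective (g c) hbij, by
      intro u v
      exact hadj u v⟩
    cases h3 : label c <;> cases h4 : label (π c)
    · rfl
    · rw [h3, h4] at e
      exact (hne.false e).elim
    · rw [h3, h4] at e
      exact (hne.false e.symm).elim
    · rfl
  have hcol : ∀ c : CSet x, (π c).1 = 0 ↔ c.1 = 0 := by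
    intro c
    have h3 : decide ((π c).1 = 1) = decide (c.1 = 1) := hlabel c
    have h4 : (π c).1 = 1 ↔ c.1 = 1 := by simpa using h3
    have h5 : ∀ i : Fin 2, i = 0 ↔ ¬ i = 1 := by decide
    rw [h5, h5, h4]
  apply hx
  have h3 : ∑ c ∈ Finset.univ.filter (fun c : CSet x => c.1 = 0), (1 : ZMod 2) = 0 := by
    refine Finset.sum_involution (fun c _ => π c) ?_ ?_ ?_ ?_
    · intro c _
      decide
    · intro c _ _
      exact hπne c
    · intro c hc
      rw [Finset.mem_filter] at hc ⊢
      exact ⟨Finset.mem_univ _, (hcol c).2 hc.2⟩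
    · intro c _
      exact hππ c
  rw [Finset.sum_const, nsmul_eq_mul, mul_one] at h3
  have h4 : (Finset.univ.filter fun c : CSet x => c.1 = 0).card = x 0 := by
    have h5 : (Finset.univ.filter fun c : CSet x => c.1 = 0) =
        Finset.univ.image fun a : Fin (x 0) => (⟨0, a⟩ : CSet x) := by
      ext ⟨i, a⟩
      rw [Finset.mem_filter, Finset.mem_image]
      constructor
      · rintro ⟨_, h6⟩
        simp only at h6
        subst h6
        exact ⟨a, Finset.mem_univ _, rfl⟩
      · rintro ⟨b, _, h6⟩
        exact ⟨Finset.mem_univ _, by rw [← h6]⟩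
    rw [h5, Finset.card_image_of_injective _ (fun a b h => eq_of_heq (Sigma.mk.inj h).2),
      Finset.card_univ, Fintype.card_fin]
  rw [h4, ZMod.natCast_eq_zero_iff] at h3
  exact even_iff_two_dvd.2 h3

end

end Pool.Agent.H677.CL
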