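import Pool.Graph.R_seed8.R892.Ord.Mem
import Pool.Agent.H677.CL.Logic

/-!
# The existence of fixed-point-free involutory automorphisms is in NP
-/

set_option autoImplicit false

namespace Pool.Agent.NPC.CL677

open Pool.Agent.NPC Pool.Agent.NPC.R671 Pool.Agent.NPC.R892 Pool.Agent.H677.CL

/-- The decision problem: the input is the adjacency matrix of a graph, the question is whether the
graph has an automorphism of order two without fixed points. -/
def FreeInvolutionProblem (M : List (List Bool)) : Prop :=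
  ∃ (n : ℕ) (G : SimpleGraph (Fin n)), adjMatrix G = M ∧ FreeInvolution G

theorem free_iff (M : List (List Bool)) :
    FreeInvolutionProblem M ↔ IsAdj M ∧ ∃ w : ℕ → ℕ,
      (∀ i < M.length, w i < M.length ∧ w (w i) = i ∧ w i ≠ i) ∧
        ∀ i < M.length, ∀ j < M.length, ent M i j = ent M (w i) (w j) := by
  constructor
  · rintro ⟨n, G, h1, f, h2, h3⟩
    rw [← h1, length_adjMatrix]
    refine ⟨isAdj_adjMatrix _, fun i => if h : i < n then f ⟨i, h⟩ else 0, ?_, ?_⟩
    · intro i hi
      beta_reduce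
      rw [dif_pos hi, dif_pos (Fin.isLt _)]
      refine ⟨Fin.isLt _, ?_, ?_⟩
      · rw [Fin.eta, h2]
      · intro h4
        exact h3 ⟨i, hi⟩ (Fin.ext h4)
    · intro i hi j hj
      beta_reduce
      rw [dif_pos hi, dif_pos hj, Bool.eq_iff_iff]
      have e1 := ent_adjMatrix G ⟨i, hi⟩ ⟨j, hj⟩
      have e2 := ent_adjMatrix G (f ⟨i, hi⟩) (f ⟨j, hj⟩)
      exact e1.trans (f.map_adj_iff.symm.trans e2.symm)
  · rintro ⟨h1, w, h4, h5⟩
    obtain ⟨W, hW⟩ : ∃ W : Fin M.length → Fin M.length, ∀ i, (W i : ℕ) = w i :=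
      ⟨fun i => ⟨w i, (h4 i i.2).1⟩, fun _ => rfl⟩
    have hWW : ∀ i, W (W i) = i := fun i => Fin.ext (by rw [hW, hW]; exact (h4 i i.2).2.1)
    refine ⟨M.length, matG M _ h1 rfl, adjMatrix_matG _ _ _ _, ⟨⟨W, W, hWW, hWW⟩, ?_⟩, hWW, ?_⟩
    · intro i j
      show ent M (W i) (W j) = true ↔ ent M i j = true
      rw [h5 i i.2 j j.2, hW, hW]
    · intro i h6
      apply (h4 i i.2).2.2
      rw [← hW]
      exact congrArg Fin.val h6

/-- The verifier. -/
def chkF (p : List (List Bool) × List ℕ) : Bool :=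
  isAdjB p.1 && (
  (List.range p.1.length).all (fun i => decide (p.2.getD i 0 < p.1.length) &&
    (decide (p.2.getD (p.2.getD i 0) 0 = i) && !decide (p.2.getD i 0 = i))) &&
  (List.range p.1.length).all fun i => (List.range p.1.length).all fun j =>
    decide (ent p.1 i j = ent p.1 (p.2.getD i 0) (p.2.getD j 0)))

theorem chkF_iff (M : List (List Bool)) (w : List ℕ) :
    chkF (M, w) = true ↔ IsAdj M ∧
      (∀ i < M.length, w.getD i 0 < M.length ∧ w.getD (w.getD i 0) 0 = i ∧ w.getD i 0 ≠ i) ∧
        ∀ i < M.length, ∀ j < M.length, ent M i j = ent M (w.getD i 0) (w.getD j 0) := by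
  unfold chkF
  simp only [Bool.and_eq_true, List.all_eq_true, decide_eq_true_eq, List.mem_range, isAdjB_iff,
    Bool.not_eq_true', decide_eq_false_iff_not, ne_eq]

theorem poly_chkF : Poly chkF := by
  unfold chkF
  have h : ∀ {α : Type} [TEnc α] {f : α → List (List Bool)}, Poly f →
      Poly (fun a => List.range (f a).length) := fun hf => Poly.range_length hf
  refine Poly.and (poly_isAdjB.comp (Poly.fst Poly.id)) (Poly.and ?_ ?_)
  · refine Poly.all (h (Poly.fst Poly.id)) (Poly.and (by fun_prop) (Poly.and ?_ ?_))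
    · exact Poly.dec_eq (Poly.getD (Poly.snd (Poly.fst Poly.id)) (Poly.getD
        (Poly.snd (Poly.fst Poly.id)) (Poly.snd Poly.id) (Poly.const 0)) (Poly.const 0))
        (Poly.snd Poly.id)
    · exact Poly.not (Poly.dec_eq (Poly.getD (Poly.snd (Poly.fst Poly.id)) (Poly.snd Poly.id)
        (Poly.const 0)) (Poly.snd Poly.id))
  · refine Poly.all (h (Poly.fst Poly.id)) ?_
    refine Poly.all (h (Poly.fst (Poly.fst Poly.id))) ?_
    refine Poly.dec_eq (poly_ent (by fun_prop) (by fun_prop) (by fun_prop)) (poly_ent (by fun_prop)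
      (by fun_prop) (by fun_prop))

theorem inNPP_free : InNPP FreeInvolutionProblem := by
  refine inNPP_of (β := List ℕ) poly_chkF
    (Polynomial.X * (Polynomial.C 4 * Polynomial.X + Polynomial.C 2) + Polynomial.C 1) ?_
  intro M
  rw [free_iff]
  constructor
  · rintro ⟨h1, w, h4, h5⟩
    have h6 : M.length ≤ sz M := by
      have e1 := length_lt_sz M
      omega
    refine ⟨List.ofFn fun i : Fin M.length => w i, ?_, ?_⟩
    · have h7 : ∀ a ∈ List.ofFn (fun i : Fin M.length => w i), sz a ≤ 4 * sz M + 1 := by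
        intro a ha
        rw [List.mem_ofFn] at ha
        obtain ⟨i, rfl⟩ := ha
        have e3 := sz_nat_le (w i)
        have e4 : Nat.size (w i) ≤ w i := by
          rw [Nat.size_le]
          exact Nat.lt_two_pow_self
        have e5 := (h4 i i.2).1
        omega
      have h8 := sz_le_length_mul _ _ h7
      rw [List.length_ofFn] at h8
      simp only [Polynomial.eval_add, Polynomial.eval_mul, Polynomial.eval_X, Polynomial.eval_C]
      refine h8.trans ?_
      gcongr
    · have hget : ∀ k < M.length, (List.ofFn fun i : Fin M.length => w i).getD k 0 = w k := by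
        intro k hk
        rw [List.getD_eq_getElem _ _ (by simpa using hk)]
        simp
      rw [chkF_iff]
      refine ⟨h1, fun i hi => ?_, fun i hi j hj => ?_⟩
      · rw [hget i hi, hget _ (h4 i hi).1]
        exact h4 i hi
      · rw [hget i hi, hget j hj]
        exact h5 i hi j hj
  · rintro ⟨w, -, hw⟩
    rw [chkF_iff] at hw
    obtain ⟨h1, h4, h5⟩ := hw
    exact ⟨h1, fun k => w.getD k 0, h4, h5⟩

end Pool.Agent.NPC.CL677
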