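import Pool.Agent.H677.CL.Core

/-!
# Reductions are formulas
-/

set_option autoImplicit false

namespace Pool.Agent.H677.CL

open Pool.Agent.N585.GI (Pre append_left append_right comp_append)

/-- The sentence which says that the outputs of the two interpretations are isomorphic. -/
def isoSentence {k p s : ℕ} (I J : Interp k p s) : Fml k p s 0 :=
  .iso I.d I.r (by have := I.hd; omega) I.hr
    (fun i => .sub I.d (by have := I.hd; omega) (Fin.natAdd 0) (I.δ i))
    (fun i j => .sub (I.d + I.d) (by have := I.hd; omega)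
      (Fin.append (Fin.castAdd I.d ∘ Fin.natAdd 0) (Fin.natAdd (0 + I.d))) (I.ε i j))
    (fun i j => .sub (I.d + I.d) (by have := I.hd; omega)
      (Fin.append (Fin.castAdd I.d ∘ Fin.natAdd 0) (Fin.natAdd (0 + I.d))) (I.η i j))
    J.d J.r (by have := J.hd; omega) J.hr
    (fun i => .sub J.d (by have := J.hd; omega) (Fin.natAdd 0) (J.δ i))
    (fun i j => .sub (J.d + J.d) (by have := J.hd; omega)
      (Fin.append (Fin.castAdd J.d ∘ Fin.natAdd 0) (Fin.natAdd (0 + J.d))) (J.ε i j))
    (fun i j => .sub (J.d + J.d) (by have := J.hd; omega)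
      (Fin.append (Fin.castAdd J.d ∘ Fin.natAdd 0) (Fin.natAdd (0 + J.d))) (J.η i j))

theorem comp_two {V : Type} {d : ℕ} (a : Fin 0 → V) (u w : Fin d → V) :
    Fin.append (Fin.append a u) w ∘
      Fin.append (Fin.castAdd d ∘ Fin.natAdd 0) (Fin.natAdd (0 + d)) = Fin.append u w := by
  rw [comp_append, ← Function.comp_assoc, append_left, append_right, append_right]

theorem isoSentence_holds {k p s : ℕ} (I J : Interp k p s) {V : Type} [Fintype V]
    (G : SimpleGraph V) (a : Fin 0 → V) :
    (isoSentence I J).Holds G a ↔ (I.out G).Iso (J.out G) := by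
  unfold isoSentence
  simp only [Fml.Holds, append_right, comp_two]
  exact Iff.rfl

theorem no_reduction (p : ℕ) (hp : p.Prime) (k s : ℕ) (I J : Interp k p s) :
    ¬ ∀ (V : Type) [Fintype V] (G : SimpleGraph V),
      (FreeInvolution G ↔ (I.out G).Iso (J.out G)) := by
  intro h
  obtain ⟨V, V', iV, iV', G, H, _, h1, h2, h3⟩ := exists_pair p hp k s
  have h4 := h3 (isoSentence I J)
  rw [isoSentence_holds, isoSentence_holds, ← h V G, ← h V' H] at h4
  exact h2 (h4.1 h1)

end Pool.Agent.H677.CL
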